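import Mathlib

set_option autoImplicit false

namespace Pool.Agent.Results.MP_2dcdad_ag.TwoLimits

open MvPolynomial

/-- The action on `K`-points of the polynomial map with components `T i`. -/
noncomputable def act {F : Type} [Field F] (K : Type) [Field K] [Algebra F K] {n : ℕ}
    (T : Fin n → MvPolynomial (Fin n) F) (x : Fin n → K) : Fin n → K := fun i => aeval x (T i)

/-- The map `(x, a, z) ↦ (x - z) ^ 2 • (x a, a z, z ^ 2)`. -/
noncomputable def T (F : Type) [Field F] : Fin 3 → MvPolynomial (Fin 3) F :=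
  ![(X 0 - X 2) ^ 2 * (X 0 * X 1), (X 0 - X 2) ^ 2 * (X 1 * X 2), (X 0 - X 2) ^ 2 * X 2 ^ 2]

theorem orbit {F K : Type} [Field F] [Field K] [Algebra F K] (a : K) (k : ℕ) :
    ∃ z : K, (act K (T F))^[k] ![a, a, 1] = ![z * a ^ (k + 1), z * a, z] := by
  induction k with
  | zero => exact ⟨1, by simp⟩
  | succ k ih =>
    obtain ⟨z, hz⟩ := ih
    refine ⟨(z * a ^ (k + 1) - z) ^ 2 * z ^ 2, ?_⟩
    rw [Function.iterate_succ_apply', hz]
    ext i
    fin_cases i <;> simp [act, T] <;> ring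

theorem result (F : Type) [Field F] [Finite F] :
    ∃ (n : ℕ) (T : Fin n → MvPolynomial (Fin n) F) (I : Ideal (MvPolynomial (Fin n) F))
      (P Q : Fin n → AlgebraicClosure F),
      (vanishingIdeal (AlgebraicClosure F) (zeroLocus (AlgebraicClosure F) I)).IsPrime ∧
      P ≠ Q ∧ act _ T P = P ∧ act _ T Q = Q ∧
      (∀ y ∈ zeroLocus (AlgebraicClosure F) I, ∃ k, 1 ≤ k ∧
        ((act _ T)^[k] y = P ∨ (act _ T)^[k] y = Q)) ∧
      (∃ y ∈ zeroLocus (AlgebraicClosure F) I, ∃ k, 1 ≤ k ∧ (act _ T)^[k] y = P) ∧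
      ∃ y ∈ zeroLocus (AlgebraicClosure F) I, ∃ k, 1 ≤ k ∧ (act _ T)^[k] y = Q := by
  set K := AlgebraicClosure F
  have hY : ∀ y : Fin 3 → K, y ∈ zeroLocus K (Ideal.span {X 0 - X 1, X 2 - 1} :
      Ideal (MvPolynomial (Fin 3) F)) ↔ ∃ a, y = ![a, a, 1] := fun y => by
    rw [zeroLocus_span]
    simp only [Set.mem_ofPred_eq, Set.mem_insert_iff, Set.mem_singleton_iff, forall_eq_or_imp,
      forall_eq, map_sub, aeval_X, map_one, sub_eq_zero]
    refine ⟨fun h => ⟨y 0, ?_⟩, ?_⟩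
    · ext i
      fin_cases i <;> simp [h.1, h.2]
    · rintro ⟨a, rfl⟩
      simp
  have f1 : act K (T F) ![0, 0, 1] = ![0, 0, 1] := by
    ext i
    fin_cases i <;> simp [act, T]
  refine ⟨3, T F, Ideal.span {X 0 - X 1, X 2 - 1}, 0, ![0, 0, 1], ?_, fun h => ?_, ?_, f1,
    fun y hy => ?_, ⟨![1, 1, 1], (hY _).2 ⟨1, rfl⟩, 1, le_rfl, ?_⟩,
    ![0, 0, 1], (hY _).2 ⟨0, rfl⟩, 1, le_rfl, f1⟩
  · convert RingHom.ker_isPrime (aeval (R := K) ![Polynomial.X, Polynomial.X, 1] :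
      MvPolynomial (Fin 3) K →ₐ[K] Polynomial K)
    ext p
    have : ∀ a : K, (aeval (R := K) ![Polynomial.X, Polynomial.X, 1] p).eval a =
        aeval ![a, a, 1] p := fun a => by
      rw [← Polynomial.coe_aeval_eq_eval, ← AlgHom.comp_apply, comp_aeval]
      congr 2
      ext i
      fin_cases i <;> simp
    rw [mem_vanishingIdeal_iff, RingHom.mem_ker]
    refine ⟨fun h => Polynomial.funext fun a => ?_, fun h y hy => ?_⟩
    · rw [this, h _ ((hY _).2 ⟨a, rfl⟩), Polynomial.eval_zero]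
    · obtain ⟨a, rfl⟩ := (hY y).1 hy
      rw [← this, h, Polynomial.eval_zero]
  · simpa using congrFun h 2
  · ext i
    fin_cases i <;> simp [act, T]
  · obtain ⟨a, rfl⟩ := (hY y).1 hy
    by_cases ha : a = 0
    · exact ⟨1, le_rfl, .inr (ha ▸ f1)⟩
    obtain ⟨k, hk, h⟩ : ∃ k, 0 < k ∧ a ^ k = 1 := by
      have : Finite (IntermediateField.adjoin F {a}) := by
        have := IntermediateField.adjoin.finiteDimensional (Algebra.IsIntegral.isIntegral (R := F) a)
        exact Module.finite_of_finite F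
      obtain ⟨k, hk, h⟩ := isOfFinOrder_iff_pow_eq_one.1 (isOfFinOrder_of_finite (Units.mk0
        (IntermediateField.AdjoinSimple.gen F a) fun h => ha (congrArg Subtype.val h)))
      exact ⟨k, hk, congrArg (fun u => u.1.1) h⟩
    obtain ⟨k, rfl⟩ := Nat.exists_eq_succ_of_ne_zero hk.ne'
    obtain ⟨z, hz⟩ := orbit (F := F) a k
    refine ⟨k + 1, by omega, .inl ?_⟩
    rw [Function.iterate_succ_apply', hz, h]
    ext i
    fin_cases i <;> simp [act, T]
  · ext i
    fin_cases i <;> simp [act, T]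

end Pool.Agent.Results.MP_2dcdad_ag.TwoLimits
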